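import Pool.Agent.Lib.MP_62a5ad_mp.QN.Final

/-!
# MP_62a5ad_mp: Liouville integrability of `T_{I,I}` on `P_{3,n}` for all `n`

`I = (a, b)`, `n = 2` or `n` divides one of `a`, `b`, `a + b` and is coprime to the other two.  The
space `P_{3,n}` of projective classes of twisted n-gons in projective 3-space has dimension `3 n`; the
Poisson structure has corank `n + 2`.
-/

set_option autoImplicit false

namespace Pool.Agent.Results.MP_62a5ad_mp.IntegrableTwistedPolygons

open Pool.Agent.MP62a5ad.QN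

theorem result (n : ℕ) [NeZero n] (hn : 2 ≤ n) :
    (∃ (O : Set (Pt n)) (κ : Pt n → E n), IsChart n O κ) ∧
    ∀ a b : ℕ, 0 < a → 0 < b →
      n = 2 ∨ (n ∣ a ∧ Nat.Coprime n b) ∨ (n ∣ b ∧ Nat.Coprime n a) ∨
        (n ∣ a + b ∧ Nat.Coprime n a) → Liouville n a b (n + 2) (n - 1) :=
  ⟨⟨OO n, kch n, aChart n⟩, final n hn⟩

end Pool.Agent.Results.MP_62a5ad_mp.IntegrableTwistedPolygons
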