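import Pool.Agent.Lib.MP_62a5ad_mp.Stmt

/-!
# MP_62a5ad_mp: a Lax representation with spectral parameter for all maps `T_{I,I}`, `d = 3`

Twisted `n`-gons in projective 3-space over a field `K` are given by vectors `v k`, `k ∈ ℤ`, of
`K⁴` with `v (k + n) = M (v k)`, `M` invertible; `I = (a, b)` with arbitrary `a, b ≥ 1`.
-/

open Matrix

namespace Pool.Agent.Results.MP_62a5ad_mp.LaxThree

open Pool.Agent.Lib.MP_62a5ad_mp

theorem result :
    (∀ (K : Type) [Field K] (a b n : ℕ), 0 < a → 0 < b → 0 < n →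
      ∀ (M : Matrix (Fin 4) (Fin 4) K), M.det ≠ 0 → ∀ v : ℤ → Fin 4 → K, IsTwisted n M v →
      GenericPoints a b v → GenericPlanes a b v →
        (∀ z : K, z ≠ 0 → LaxDim a b v z ∧ Set.MapsTo (sh n M) (Sol a b v z) (Sol a b v z)) ∧
        (∃ v', IsTwisted n M v' ∧ IsImage a b v v') ∧
        ∀ v', IsTwisted n M v' → IsImage a b v v' → GenericPoints a b v' → LaxConj a b n M v v') ∧
    (∃ (M : Matrix (Fin 4) (Fin 4) ℚ) (v u : ℤ → Fin 4 → ℚ), M.det ≠ 0 ∧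
      IsTwisted 2 M v ∧ IsTwisted 2 M u ∧ GenericWithImages 1 2 v ∧ GenericWithImages 1 2 u ∧
      LaxEigen 1 2 2 M v (-1) 2 ∧ ¬ LaxEigen 1 2 2 M u (-1) 2) := by
  refine ⟨?_, ?_⟩
  · intro K _ a b n ha hb hn M hM v hv hg hp
    exact ⟨fun z hz => ⟨finrank_E ha hb hz hg, sh_mem hv⟩, exists_image hn hM hv hg hp,
      fun v' hv' hI hg' => laxConj ha hb hM hv hv' hI hg hp hg'⟩
  · exact ⟨exM, exV exR1, exV exR2, exM_det, exV_add exR1, exV_add exR2,
      ⟨ex1_points, ex1_planes, fun _ => ex1_image⟩, ⟨ex2_points, ex2_planes, fun _ => ex2_image⟩,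
      (eigen_iff (exV_add exR1)).mpr ex1_eigen,
      fun h => ex2_not_eigen ((eigen_iff (exV_add exR2)).mp h)⟩

end Pool.Agent.Results.MP_62a5ad_mp.LaxThree
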