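import Pool.Agent.Lib.MP_62a5ad_mp.RI.Final

/-!
# MP_62a5ad_mp: maps `T_{I,I}` without rational first integrals besides the monodromy

Dimension `d = 4`, `n ≥ 3`, `I = tup n c`: `(1, n - 1, n)`, `(n, 1, n - 1)`, `(n, n, (c - 2) n + 1)`.
-/

namespace Pool.Agent.Results.MP_62a5ad_mp.RationalIntegrals

open Pool.Agent.MP62a5ad.RI

theorem result (K : Type) [Field K] [CharZero K] (n c : ℕ) (hn : 3 ≤ n) :
    (∀ j, 0 < tup n c j) ∧ Admissible K n (tup n c) ∧
    (∀ p q : MvPolynomial (Co n) K, Invariant n (tup n c) p q →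
      ∀ (x y : Fin n → V5 K) (M : Matrix (Fin 5) (Fin 5) K),
        vl p x M * vl q y M = vl p y M * vl q x M) ∧
    ∀ p q : Fin 6 → MvPolynomial (Co n) K, (∀ i, q i ≠ 0) →
      (∀ i, Invariant n (tup n c) (p i) (q i)) → (∀ i, ProjInv n (p i) (q i)) →
      ¬ AlgebraicIndependent K (fun i =>
        algebraMap (MvPolynomial (Co n) K) (FractionRing (MvPolynomial (Co n) K)) (p i) /
          algebraMap (MvPolynomial (Co n) K) (FractionRing (MvPolynomial (Co n) K)) (q i)) :=
  ⟨(final_adm K n c hn).1, (final_adm K n c hn).2, final_inv K n c hn, final_dep K n c hn⟩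

end Pool.Agent.Results.MP_62a5ad_mp.RationalIntegrals
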